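import Pool.Agent.K7.H42.SD.OrdAlg

/-!
# Project SD: the list algorithm for scans (fallback for job ALG)
-/

set_option autoImplicit false

namespace Pool.Agent.K7.H42.SD

open Pool.Agent.NPC

/-- a state: the interval, the registers, the cost -/
abbrev St := (ℕ × ℕ) × (Reg × ℕ)

/-- all states with entries `≤ n` -/
def sts (n : ℕ) : List St :=
  (pairs (n + 1)).flatMap (fun p => (pairs (n + 1)).flatMap (fun a => (pairs (n + 1)).flatMap
    (fun b => (List.range (n + 1)).map (fun c => (p, ((a, b), c))))))

/-- `x` is in the registers -/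
def memb (h : Reg) (x : ℕ) : Bool :=
  (decide (x = h.1.1) || decide (x = h.1.2)) || (decide (x = h.2.1) || decide (x = h.2.2))

/-- the number of the new vertices -/
def newb (n : ℕ) (h h' : Reg) : ℕ :=
  ((List.range n).filter (fun x => memb h' x && !(memb h x))).length

/-- the cost of the row `r` -/
def undb (L : List (List ℕ)) (h : Reg) (r : ℕ) : ℕ :=
  if (List.range L.length).any (fun x => memb h x && (decide (x = r) || adjb L x r)) then 0 else 1

/-- the start states -/
def startb (L : List (List ℕ)) (s : St) : Bool :=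
  (decide (s.1.1 = 0) && decide (s.1.2 + 1 = L.length)) &&
    decide (s.2.2 = newb L.length (emp L.length) s.2.1)

/-- one step of the scan -/
def stepb (L : List (List ℕ)) (s s' : St) : Bool :=
  ((decide (s'.1.1 = s.1.1 + 1) && decide (s'.1.2 = s.1.2)) && (decide (s.1.1 < s.1.2) &&
    decide (s'.2.2 = s.2.2 + undb L s.2.1 s.1.1 + newb L.length s.2.1 s'.2.1))) ||
  ((decide (s'.1.1 = s.1.1) && decide (s.1.2 = s'.1.2 + 1)) && (decide (s'.1.1 ≤ s'.1.2) &&
    decide (s'.2.2 = s.2.2 + undb L s.2.1 s.1.2 + newb L.length s.2.1 s'.2.1)))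

/-- one round -/
def rs (L : List (List ℕ)) (R : List St) : List St :=
  (sts L.length).filter (fun s' => startb L s' || R.any (fun s => stepb L s s'))

/-- the algorithm -/
def algd (I : Inst) : Bool :=
  (decide (I.1.length = 0) || decide (I.1.length ≤ I.2)) ||
    ((rs I.1)^[I.1.length] []).any (fun s => decide (s.1.1 = s.1.2) &&
      decide (s.2.2 + undb I.1 s.2.1 s.1.1 ≤ I.2))

/-- correctness of the list algorithm -/
def StAlgCor : Prop := ∀ I : Inst,
  algd I = true ↔ Scan I.1.length (fun i j => adjb I.1 i j = true) I.2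

/-- the list algorithm runs in polynomial time -/
def StAlgPoly : Prop := Poly algd

end Pool.Agent.K7.H42.SD
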