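import Pool.Agent.K7.H42.SD.Final

/-!
# Project SD: JOB CLOSE
-/

set_option autoImplicit false

namespace Pool.Agent.K7.H42.SD

section
variable {L : List (List ℕ)}

theorem mem_rnd {S : List (ℕ × ℕ)} {e : ℕ × ℕ} : e ∈ rnd L S ↔
    (e.1 < L.length ∧ e.2 < L.length) ∧ ∃ f ∈ S, f = e ∨ impb L f e = true ∨
      (f.1 = e.1 ∧ ∃ g ∈ S, g.1 = f.2 ∧ g.2 = e.2) := by
  unfold rnd
  simp only [List.mem_filter, mem_pairs, List.any_eq_true, Bool.or_eq_true, Bool.and_eq_true,
    decide_eq_true_eq]

theorem rnd_mono {S T : List (ℕ × ℕ)} (h : ∀ e ∈ S, e ∈ T) : ∀ e ∈ rnd L S, e ∈ rnd L T := by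
  intro e he
  rw [mem_rnd] at he ⊢
  obtain ⟨h1, f, hf, h2⟩ := he
  refine ⟨h1, f, h f hf, ?_⟩
  rcases h2 with h2 | h2 | ⟨h2, g, hg, h3⟩
  · exact Or.inl h2
  · exact Or.inr (Or.inl h2)
  · exact Or.inr (Or.inr ⟨h2, g, h g hg, h3⟩)

theorem stClose : StClose := by
  classical
  intro L S hS a b
  set R : ℕ → List (ℕ × ℕ) := fun k => (rnd L)^[k] S with hR
  have hR0 : R 0 = S := rfl
  have hRs : ∀ k, R (k + 1) = rnd L (R k) := fun k => Function.iterate_succ_apply' _ _ _
  have hin : ∀ k, ∀ e ∈ R k, e.1 < L.length ∧ e.2 < L.length := by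
    intro k
    cases k with
    | zero => exact hS
    | succ k =>
      intro e he
      rw [hRs, mem_rnd] at he
      exact he.1
  have hstep : ∀ k, ∀ e ∈ R k, e ∈ R (k + 1) := by
    intro k e he
    rw [hRs, mem_rnd]
    exact ⟨hin k e he, e, he, Or.inl rfl⟩
  have hmono : ∀ j k, j ≤ k → ∀ e ∈ R j, e ∈ R k := by
    intro j k hjk
    induction hjk with
    | refl => exact fun e he => he
    | step _ ih => exact fun e he => hstep _ e (ih e he)
  -- soundness
  have hsound : ∀ k, ∀ e ∈ R k, Clo L S e.1 e.2 := by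
    intro k
    induction k with
    | zero => exact fun e he => Clo.base he
    | succ k ih =>
      intro e he
      rw [hRs, mem_rnd] at he
      obtain ⟨-, f, hf, h2⟩ := he
      rcases h2 with rfl | h2 | ⟨h2, g, hg, h3, h4⟩
      · exact ih f hf
      · exact Clo.imp (ih f hf) h2
      · have e1 := ih f hf
        have e2 := ih g hg
        rw [h2] at e1
        rw [h3, h4] at e2
        exact Clo.trans e1 e2
  -- the chain stops
  set N := (pairs L.length).length with hN
  set F : ℕ → Finset (ℕ × ℕ) := fun k => (R k).toFinset with hF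
  have hFs : ∀ k, F k ⊆ F (k + 1) := by
    intro k e he
    rw [hF, List.mem_toFinset] at he ⊢
    exact hstep k e he
  have hcard : ∀ k, (F k).card ≤ N := by
    intro k
    have h1 : F k ⊆ (pairs L.length).toFinset := by
      intro e he
      rw [hF, List.mem_toFinset] at he
      rw [List.mem_toFinset, mem_pairs]
      exact hin k e he
    exact (Finset.card_le_card h1).trans (List.toFinset_card_le _)
  have hstop : ∃ k ≤ N, F (k + 1) = F k := by
    by_contra hcon
    push Not at hcon
    have h1 : ∀ k ≤ N + 1, k ≤ (F k).card := by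
      intro k
      induction k with
      | zero => exact fun _ => Nat.zero_le _
      | succ k ih =>
        intro hk
        have h2 := ih (by omega)
        have h3 : F k ⊂ F (k + 1) :=
          (hFs k).ssubset_of_ne (fun h => hcon k (by omega) h.symm)
        have h4 := Finset.card_lt_card h3
        omega
    have h2 := h1 (N + 1) le_rfl
    have h3 := hcard (N + 1)
    omega
  obtain ⟨k, hk, hk2⟩ := hstop
  have hst : ∀ j, F (k + j) = F k := by
    intro j
    induction j with
    | zero => rfl
    | succ j ih =>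
      have h1 : ∀ e, e ∈ R (k + j) ↔ e ∈ R k := by
        intro e
        have := congrArg (fun s => e ∈ s) ih
        simp only [hF, List.mem_toFinset] at this
        exact iff_of_eq this
      have h2 : ∀ e, e ∈ R (k + j + 1) ↔ e ∈ R (k + 1) := by
        intro e
        rw [hRs, hRs]
        exact ⟨rnd_mono (fun e he => (h1 e).1 he) e, rnd_mono (fun e he => (h1 e).2 he) e⟩
      rw [← hk2]
      ext e
      rw [hF, List.mem_toFinset, List.mem_toFinset]
      exact h2 e
  have hfix : ∀ e, e ∈ rnd L (R N) → e ∈ R N := by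
    intro e he
    rw [← hRs] at he
    have h1 := hst (N - k)
    have h2 := hst (N - k + 1)
    rw [show k + (N - k) = N by omega] at h1
    rw [show k + (N - k + 1) = N + 1 by omega, ← h1] at h2
    have h3 : e ∈ F (N + 1) := by rw [hF, List.mem_toFinset]; exact he
    rw [h2, hF, List.mem_toFinset] at h3
    exact h3
  have hclose : close L S = R N := rfl
  rw [hclose]
  constructor
  · exact fun h => hsound N _ h
  · intro h
    have hgo : ∀ a b, Clo L S a b → (a, b) ∈ R N := by
      intro a b h
      induction h with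
      | base h => exact hmono 0 N (Nat.zero_le _) _ h
      | @imp a b y x _ himp ih =>
        apply hfix
        rw [mem_rnd]
        have himp' := impb_iff.1 himp
        exact ⟨⟨(adjb_lt himp'.2.1).2, (adjb_lt himp'.1).2⟩, (a, b), ih, Or.inr (Or.inl himp)⟩
      | @trans a b c _ _ ih1 ih2 =>
        apply hfix
        rw [mem_rnd]
        exact ⟨⟨(hin N _ ih1).1, (hin N _ ih2).2⟩, (a, b), ih1,
          Or.inr (Or.inr ⟨rfl, (b, c), ih2, rfl, rfl⟩)⟩
    exact hgo a b h

end

end Pool.Agent.K7.H42.SD
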