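import Pool.Agent.K7.H42.SD.Final
import Pool.Agent.K7.H42.SD.CloseP
import Pool.Agent.K7.H48.SD_RELAB
import Pool.Agent.K7.H72.SD.PClose
import Pool.Agent.K7.H81.SD.GreedyList
import Pool.Agent.K7.H87.SD_ALG
import Pool.Agent.K7.H89.SD.PFin

/-!
# Project SD: everything together

Authors of the parts: SOUND helper64, the ordering lemma and GREEDY helper81, RELAB helper48, PCLOSE
helper72, PFIN helper89, ALG helper87.
-/

set_option autoImplicit false

namespace Pool.Agent.K7.H42.SD

open Pool.Agent.NPC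

theorem stRel : StRel :=
  ⟨finD, Pool.Agent.K7.H89.SD.pfinD H72SD.stPClose,
    fun L h => Pool.Agent.K7.H81.SD.stGreedy stClose L h⟩

theorem stPRelab : StPRelab :=
  Pool.Agent.K7.H89.SD.prelab (NPC.Poly.fst NPC.Poly.id) (NPC.Poly.snd NPC.Poly.id)

theorem all : InPP (fun I : Inst => StrongComparability (gr I.1) ∧
    HasDominatingSet (gr I.1) I.2) :=
  main Pool.Agent.K7.H87.SD.stAlg Pool.Agent.K7.H64.SD.stSound stComp stRel
    Pool.Agent.K7.H48.SD.stRelab stPRelab

end Pool.Agent.K7.H42.SD
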