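import Pool.Agent.NPC.Dec

/-!
# Domination on strong comparability graphs (MP_360560_lc): definitions and job statements

Project SD.  Rows and columns are numbered `0, ..., n - 1` in a strong ordering.  A *scan* removes the
rows one after the other, from the top or from the bottom; four registers hold vertices.  A vertex
that enters the registers costs `1`, a removed row that is not dominated by the registers costs `1`.
-/

set_option autoImplicit false

namespace Pool.Agent.K7.H42.SD

open Pool.Agent.NPC

/-- four registers; an entry `≥ n` means that the register is empty -/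
abbrev Reg := (ℕ × ℕ) × (ℕ × ℕ)

/-- `x` is in one of the registers -/
def Reg.mem (h : Reg) (x : ℕ) : Prop := x = h.1.1 ∨ x = h.1.2 ∨ x = h.2.1 ∨ x = h.2.2

instance (h : Reg) (x : ℕ) : Decidable (h.mem x) := by unfold Reg.mem; infer_instance

/-- the number of the vertices in the registers `h'` that are not in the registers `h` -/
def newc (n : ℕ) (h h' : Reg) : ℕ := ((Finset.range n).filter (fun x => h'.mem x ∧ ¬ h.mem x)).card

/-- the row `r` is dominated by the registers -/
def Domd (n : ℕ) (adj : ℕ → ℕ → Prop) (h : Reg) (r : ℕ) : Prop :=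
  ∃ x < n, h.mem x ∧ (x = r ∨ adj x r)

open Classical in
/-- the cost of the row `r` -/
noncomputable def und (n : ℕ) (adj : ℕ → ℕ → Prop) (h : Reg) (r : ℕ) : ℕ :=
  if Domd n adj h r then 0 else 1

/-- the empty registers -/
def emp (n : ℕ) : Reg := ((n, n), (n, n))

/-- `Reach n adj lo hi h c`: the rows `lo, ..., hi` are left, the registers are `h`, the cost is `c` -/
inductive Reach (n : ℕ) (adj : ℕ → ℕ → Prop) : ℕ → ℕ → Reg → ℕ → Prop
  | start (h : Reg) : Reach n adj 0 (n - 1) h (newc n (emp n) h)
  | bot {lo hi : ℕ} {h : Reg} {c : ℕ} (h' : Reg) : Reach n adj lo hi h c → lo < hi →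
      Reach n adj (lo + 1) hi h' (c + und n adj h lo + newc n h h')
  | top {lo hi : ℕ} {h : Reg} {c : ℕ} (h' : Reg) : Reach n adj lo (hi + 1) h c → lo ≤ hi →
      Reach n adj lo hi h' (c + und n adj h (hi + 1) + newc n h h')

/-- there is a scan of cost at most `K` -/
def Scan (n : ℕ) (adj : ℕ → ℕ → Prop) (K : ℕ) : Prop :=
  n = 0 ∨ ∃ r h c, Reach n adj r r h c ∧ c + und n adj h r ≤ K

/-- `D` is a dominating set of the graph with vertices `0, ..., n - 1` -/
def DomSet (n : ℕ) (adj : ℕ → ℕ → Prop) (D : Finset ℕ) : Prop :=
  D ⊆ Finset.range n ∧ ∀ v < n, v ∈ D ∨ ∃ d ∈ D, adj d v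

/-- `0, ..., n - 1` is a strong ordering of the graph -/
structure Strong (n : ℕ) (adj : ℕ → ℕ → Prop) : Prop where
  lt : ∀ i j, adj i j → i < n
  symm : ∀ i j, adj i j → adj j i
  irr : ∀ i, ¬ adj i i
  free : ∀ i j k l, i < j → k < l → adj i k → adj j l → adj i l ∨ adj j k

/-- JOB SOUND: every scan gives a dominating set.  (Collect the vertices that enter the registers and
the rows that are paid.) -/
def StSound : Prop := ∀ (n : ℕ) (adj : ℕ → ℕ → Prop) (K : ℕ), Scan n adj K →
  ∃ D : Finset ℕ, DomSet n adj D ∧ D.card ≤ K

/-- JOB COMP (helper42): for a strong ordering the converse holds -/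
def StComp : Prop := ∀ (n : ℕ) (adj : ℕ → ℕ → Prop), Strong n adj → ∀ D : Finset ℕ,
  DomSet n adj D → Scan n adj D.card

/-- An instance of DOMINATION: the adjacency lists of the vertices `0, ..., n - 1`, and the bound. -/
abbrev Inst := List (List ℕ) × ℕ

/-- the adjacency of the graph given by adjacency lists (symmetrised, without loops) -/
def adjb (L : List (List ℕ)) (i j : ℕ) : Bool :=
  (decide (i < L.length) && decide (j < L.length)) && (!(decide (i = j)) &&
    (decide (j ∈ L.getD i []) || decide (i ∈ L.getD j [])))

/-- JOB ALG: scans can be found in polynomial time.  (The lists of the reachable quadruples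
`(lo, hi, h, c)` with `hi - lo + 1 = n - t`, all entries `≤ n`, are computed for `t = 0, 1, ...` with
`Poly.iterLen`; registers with entries `> n` can be replaced by `n`, costs `> n` are not needed if the
bound is at least `n`, as there is always a scan of cost `n`; or let the cost run up to `6 n`.) -/
def StAlg : Prop := ∃ d : Inst → Bool, Poly d ∧
  ∀ I : Inst, d I = true ↔ Scan I.1.length (fun i j => adjb I.1 i j = true) I.2

end Pool.Agent.K7.H42.SD
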