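import Pool.Agent.K7.H42.SD.Sched

/-!
# Project SD: the exchange argument
-/

set_option autoImplicit false

namespace Pool.Agent.K7.H42.SD

section
variable {n : ℕ} {adj : ℕ → ℕ → Prop}

open Classical in
/-- the isolated vertices of `D` -/
noncomputable def isoSet (adj : ℕ → ℕ → Prop) (D : Finset ℕ) : Finset ℕ :=
  D.filter (fun v => ∀ d ∈ D, ¬ adj d v)

theorem mem_isoSet {D : Finset ℕ} {v : ℕ} : v ∈ isoSet adj D ↔ v ∈ D ∧ ∀ d ∈ D, ¬ adj d v := by
  classical
  simp only [isoSet, Finset.mem_filter]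

/-- the exchange -/
theorem exch (hS : Strong n adj) {D P : Finset ℕ} (hD : DomSet n adj D) (hPD : P ⊆ D)
    (hN : ∀ v, (∃ d ∈ D, adj d v) → ∃ x ∈ P, adj x v)
    (hmin : ∀ D', DomSet n adj D' → D'.card ≤ D.card →
      (isoSet adj D).card ≤ (isoSet adj D').card)
    {k k' p p' : ℕ} (hk : k ∈ P) (hk' : k' ∈ P) (hne : k ≠ k') (hi : ∀ d ∈ D, ¬ adj d k)
    (hi' : ∀ d ∈ D, ¬ adj d k') (hp : adj k p) (hp' : adj k' p') (hpp : adj p p')
    (hcov : ∀ v, v < n → (adj k v ∨ adj k' v) → (∀ x ∈ P, x ≠ k → x ≠ k' → ¬ adj x v) →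
      adj p v ∨ adj p' v) : False := by
  classical
  set D' : Finset ℕ := insert p (insert p' ((D.erase k).erase k')) with hD'
  have hkD := hPD hk
  have hkD' := hPD hk'
  have hmem : ∀ {d}, d ∈ D → d ≠ k → d ≠ k' → d ∈ D' := by
    intro d hd h1 h2
    rw [hD']
    exact Finset.mem_insert_of_mem (Finset.mem_insert_of_mem
      (Finset.mem_erase.2 ⟨h2, Finset.mem_erase.2 ⟨h1, hd⟩⟩))
  have hpm : p ∈ D' := by rw [hD']; exact Finset.mem_insert_self _ _
  have hpm' : p' ∈ D' := by
    rw [hD']; exact Finset.mem_insert_of_mem (Finset.mem_insert_self _ _)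
  have hdom : DomSet n adj D' := by
    constructor
    · intro v hv
      rw [hD', Finset.mem_insert, Finset.mem_insert, Finset.mem_erase, Finset.mem_erase] at hv
      rcases hv with rfl | rfl | ⟨-, -, hv⟩
      · exact Finset.mem_range.2 (hS.lt _ _ (hS.symm _ _ hp))
      · exact Finset.mem_range.2 (hS.lt _ _ (hS.symm _ _ hp'))
      · exact hD.1 hv
    · intro v hv
      by_cases h1 : v = k
      · exact Or.inr ⟨p, hpm, h1 ▸ hS.symm _ _ hp⟩
      by_cases h2 : v = k'
      · exact Or.inr ⟨p', hpm', h2 ▸ hS.symm _ _ hp'⟩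
      rcases hD.2 v hv with h3 | ⟨d, hd, hdv⟩
      · exact Or.inl (hmem h3 h1 h2)
      · right
        by_cases h4 : ∃ x ∈ P, x ≠ k ∧ x ≠ k' ∧ adj x v
        · obtain ⟨x, hx, hx1, hx2, hx3⟩ := h4
          exact ⟨x, hmem (hPD hx) hx1 hx2, hx3⟩
        · push Not at h4
          obtain ⟨x, hx, hxv⟩ := hN v ⟨d, hd, hdv⟩
          have h5 : adj k v ∨ adj k' v := by
            by_cases h6 : x = k
            · exact Or.inl (h6 ▸ hxv)
            · by_cases h7 : x = k'
              · exact Or.inr (h7 ▸ hxv)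
              · exact absurd hxv (h4 x hx h6 h7)
          rcases hcov v hv h5 h4 with h | h
          · exact ⟨p, hpm, h⟩
          · exact ⟨p', hpm', h⟩
  have hcard : D'.card ≤ D.card := by
    have e1 := Finset.card_erase_of_mem hkD
    have e2 : k' ∈ D.erase k := Finset.mem_erase.2 ⟨hne.symm, hkD'⟩
    have e3 := Finset.card_erase_of_mem e2
    have e4 : 0 < (D.erase k).card := Finset.card_pos.2 ⟨k', e2⟩
    have e5 := Finset.card_insert_le p (insert p' ((D.erase k).erase k'))
    have e6 := Finset.card_insert_le p' ((D.erase k).erase k')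
    rw [hD']
    omega
  have hlt := hmin D' hdom hcard
  have hsub : isoSet adj D' ⊆ (isoSet adj D).erase k := by
    intro v hv
    rw [mem_isoSet] at hv
    obtain ⟨hv1, hv2⟩ := hv
    have hvp : v ≠ p := fun h => hv2 p' hpm' (h ▸ hS.symm _ _ hpp)
    have hvp' : v ≠ p' := fun h => hv2 p hpm (h ▸ hpp)
    rw [hD', Finset.mem_insert, Finset.mem_insert, Finset.mem_erase, Finset.mem_erase] at hv1
    rcases hv1 with h | h | ⟨h1, h2, h3⟩
    · exact absurd h hvp
    · exact absurd h hvp'
    · rw [Finset.mem_erase, mem_isoSet]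
      refine ⟨h2, h3, fun d hd hdv => ?_⟩
      have e1 : d ≠ k := fun h => hi v h3 (hS.symm _ _ (h ▸ hdv))
      have e2 : d ≠ k' := fun h => hi' v h3 (hS.symm _ _ (h ▸ hdv))
      exact hv2 d (hmem hd e1 e2) hdv
  have h1 := Finset.card_le_card hsub
  have h2 : k ∈ isoSet adj D := mem_isoSet.2 ⟨hkD, hi⟩
  have h3 := Finset.card_erase_of_mem h2
  have h4 : 0 < (isoSet adj D).card := Finset.card_pos.2 ⟨k, h2⟩
  omega

/-- the frame of a dominating set -/
theorem frame_of_dom (hS : Strong n adj) {D : Finset ℕ} (hD : DomSet n adj D) :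
    ∃ (P : Finset ℕ) (a b : ℕ → ℕ), Frame n adj P a b ∧ P.card + (Us n adj P).card ≤ D.card := by
  classical
  -- a dominating set with the fewest isolated vertices
  obtain ⟨E, hE, hEmin⟩ := Finset.exists_min_image
    ((Finset.range n).powerset.filter (fun D' => DomSet n adj D' ∧ D'.card ≤ D.card))
    (fun D' => (isoSet adj D').card)
    ⟨D, Finset.mem_filter.2 ⟨Finset.mem_powerset.2 hD.1, hD, le_rfl⟩⟩
  rw [Finset.mem_filter] at hE
  obtain ⟨-, hE1, hE2⟩ := hE
  have hmin : ∀ D', DomSet n adj D' → D'.card ≤ E.card →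
      (isoSet adj E).card ≤ (isoSet adj D').card := fun D' h1 h2 =>
    hEmin D' (Finset.mem_filter.2 ⟨Finset.mem_powerset.2 h1.1, h1, h2.trans hE2⟩)
  -- a smallest subset with the same neighbourhood
  obtain ⟨P, hP, hPmin⟩ := Finset.exists_min_image
    (E.powerset.filter (fun P => ∀ v, (∃ d ∈ E, adj d v) → ∃ x ∈ P, adj x v))
    Finset.card ⟨E, Finset.mem_filter.2 ⟨Finset.mem_powerset.2 subset_rfl, fun _ h => h⟩⟩
  rw [Finset.mem_filter, Finset.mem_powerset] at hP
  obtain ⟨hPE, hN⟩ := hP
  have hpriv : ∀ k ∈ P, ∃ x, adj k x ∧ ∀ k' ∈ P, k' ≠ k → ¬ adj k' x := by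
    intro k hk
    by_contra hcon
    push Not at hcon
    have h1 := hPmin (P.erase k) (by
      rw [Finset.mem_filter, Finset.mem_powerset]
      refine ⟨(Finset.erase_subset _ _).trans hPE, fun v hv => ?_⟩
      obtain ⟨x, hx, hxv⟩ := hN v hv
      by_cases h : x = k
      · obtain ⟨k', hk', h1, h2⟩ := hcon v (h ▸ hxv)
        exact ⟨k', Finset.mem_erase.2 ⟨h1, hk'⟩, h2⟩
      · exact ⟨x, Finset.mem_erase.2 ⟨h, hx⟩, hxv⟩)
    have h2 := Finset.card_erase_of_mem hk
    have h3 : 0 < P.card := Finset.card_pos.2 ⟨k, hk⟩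
    omega
  -- the private neighbours
  have hab : ∀ k ∈ P, ∃ ab : ℕ × ℕ, (adj k ab.1 ∧ ∀ k' ∈ P, k' ≠ k → ¬ adj k' ab.1) ∧
      (adj k ab.2 ∧ ∀ k' ∈ P, k' ≠ k → ¬ adj k' ab.2) ∧
      ∀ x, adj k x → (∀ k' ∈ P, k' ≠ k → ¬ adj k' x) → ab.1 ≤ x ∧ x ≤ ab.2 := by
    intro k hk
    obtain ⟨x0, hx0, hx0'⟩ := hpriv k hk
    set Q := (Finset.range n).filter (fun x => adj k x ∧ ∀ k' ∈ P, k' ≠ k → ¬ adj k' x) with hQ
    have hQm : ∀ x, x ∈ Q ↔ adj k x ∧ ∀ k' ∈ P, k' ≠ k → ¬ adj k' x := by
      intro x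
      rw [hQ, Finset.mem_filter, Finset.mem_range]
      exact ⟨fun h => h.2, fun h => ⟨hS.lt _ _ (hS.symm _ _ h.1), h⟩⟩
    have hne : Q.Nonempty := ⟨x0, (hQm x0).2 ⟨hx0, hx0'⟩⟩
    exact ⟨(Q.min' hne, Q.max' hne), (hQm _).1 (Q.min'_mem hne), (hQm _).1 (Q.max'_mem hne),
      fun x h1 h2 => ⟨Q.min'_le x ((hQm x).2 ⟨h1, h2⟩), Q.le_max' x ((hQm x).2 ⟨h1, h2⟩)⟩⟩
  choose! ab hab using hab
  have hord : ∀ k ∈ P, ∀ k' ∈ P, k < k' → ∀ x y, adj k x → (∀ z ∈ P, z ≠ k → ¬ adj z x) →
      adj k' y → (∀ z ∈ P, z ≠ k' → ¬ adj z y) → y < x := by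
    intro k hk k' hk' hlt x y h1 h2 h3 h4
    rcases lt_trichotomy x y with h | h | h
    · rcases hS.free k k' x y hlt h h1 h3 with h5 | h5
      · exact absurd h5 (h4 k hk hlt.ne)
      · exact absurd h5 (h2 k' hk' hlt.ne')
    · subst h
      exact absurd h3 (h2 k' hk' hlt.ne')
    · exact h
  have hisoD : ∀ k, Iso adj P k → ∀ d ∈ E, ¬ adj d k := by
    intro k hk d hd hdk
    obtain ⟨x, hx, hxk⟩ := hN k ⟨d, hd, hdk⟩
    exact hk x hx hxk
  refine ⟨P, fun k => (ab k).1, fun k => (ab k).2, ?_, ?_⟩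
  · refine ⟨fun k hk => Finset.mem_range.1 (hE1.1 (hPE hk)),
      fun k hk => hS.lt _ _ (hS.symm _ _ (hab k hk).2.1.1), fun k hk => (hab k hk).1.1,
      fun k hk => (hab k hk).2.1.1, fun k hk k' hk' h => (hab k hk).2.1.2 k' hk' h,
      fun k hk => ((hab k hk).2.2 _ (hab k hk).1.1 (hab k hk).1.2).2,
      fun k hk k' hk' hlt => hord k hk k' hk' hlt _ _ (hab k hk).1.1 (hab k hk).1.2
        (hab k' hk').2.1.1 (hab k' hk').2.1.2, ?_, ?_⟩
    · -- `Q k'` below `k`, `Q k` above `k'`
      rintro k hk k' hk' hlt hik hik' ⟨c1, c2⟩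
      have hnkk : ¬ adj k k' := hik' k hk
      have hnkk' : ¬ adj k' k := hik k' hk'
      set p := (ab k).1 with hp
      set p' := (ab k').2 with hp'
      have hkp : adj k p := (hab k hk).1.1
      have hkp' : adj k' p' := (hab k' hk').2.1.1
      have f1 : ∀ v, adj k v → k' < v → adj p' v := by
        intro v hv hlv
        rcases hS.free p' k k' v c1 hlv (hS.symm _ _ hkp') hv with h | h
        · exact h
        · exact absurd h hnkk
      have f2 : ∀ v, adj k' v → v < k → adj p v := by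
        intro v hv hlv
        rcases hS.free k' p v k c2 hlv hv (hS.symm _ _ hkp) with h | h
        · exact absurd h hnkk'
        · exact h
      refine exch hS hE1 hPE hN hmin hk hk' hlt.ne (hisoD k hik) (hisoD k' hik') hkp hkp'
        (hS.symm _ _ (f1 p hkp c2)) ?_
      intro v hv hor hoth
      by_cases h1 : adj k v
      · by_cases h2 : adj k' v
        · rcases lt_trichotomy v k with h | h | h
          · exact Or.inl (f2 v h2 h)
          · subst h; exact absurd h1 (hS.irr _)
          · rcases lt_trichotomy v k' with h' | h' | h'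
            · exfalso
              rcases hS.free k v v k' h h' h1 (hS.symm _ _ h2) with h3 | h3
              · exact hnkk h3
              · exact hS.irr _ h3
            · subst h'; exact absurd h2 (hS.irr _)
            · exact Or.inr (f1 v h1 h')
        · right
          refine f1 v h1 ?_
          have := ((hab k hk).2.2 v h1 (fun z hz hzk => by
            by_cases hzk' : z = k'
            · rw [hzk']; exact h2
            · exact hoth z hz hzk hzk')).1
          omega
      · have h2 : adj k' v := hor.resolve_left h1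
        left
        refine f2 v h2 ?_
        have := ((hab k' hk').2.2 v h2 (fun z hz hzk => by
            by_cases hzk' : z = k
            · rw [hzk']; exact h1
            · exact hoth z hz hzk' hzk)).2
        omega
    · -- `k` below `Q k'`, `Q k` below `k'`
      rintro k hk k' hk' hlt hik hik' ⟨c1, c2⟩
      have hnkk : ¬ adj k k' := hik' k hk
      have hnkk' : ¬ adj k' k := hik k' hk'
      set p := (ab k).2 with hp
      set p' := (ab k').1 with hp'
      have hkp : adj k p := (hab k hk).2.1.1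
      have hkp' : adj k' p' := (hab k' hk').1.1
      have f1 : ∀ v, adj k v → v < k' → adj p' v := by
        intro v hv hlv
        rcases hS.free k p' v k' c1 hlv hv (hS.symm _ _ hkp') with h | h
        · exact absurd h hnkk
        · exact h
      have f2 : ∀ v, adj k' v → k < v → adj p v := by
        intro v hv hlv
        rcases hS.free p k' k v c2 hlv (hS.symm _ _ hkp) hv with h | h
        · exact h
        · exact absurd h hnkk'
      refine exch hS hE1 hPE hN hmin hk hk' hlt.ne (hisoD k hik) (hisoD k' hik') hkp hkp'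
        (hS.symm _ _ (f1 p hkp c2)) ?_
      intro v hv hor hoth
      by_cases h1 : adj k v
      · by_cases h2 : adj k' v
        · by_cases h3 : v < k'
          · exact Or.inr (f1 v h1 h3)
          · exact Or.inl (f2 v h2 (by omega))
        · right
          refine f1 v h1 ?_
          have := ((hab k hk).2.2 v h1 (fun z hz hzk => by
            by_cases hzk' : z = k'
            · rw [hzk']; exact h2
            · exact hoth z hz hzk hzk')).2
          omega
      · have h2 : adj k' v := hor.resolve_left h1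
        left
        refine f2 v h2 ?_
        have := ((hab k' hk').2.2 v h2 (fun z hz hzk => by
            by_cases hzk' : z = k
            · rw [hzk']; exact h1
            · exact hoth z hz hzk' hzk)).1
        omega
  · have hU : Us n adj P ⊆ E \ P := by
      intro v hv
      unfold Us at hv
      rw [Finset.mem_filter, Finset.mem_range] at hv
      obtain ⟨hv1, hv2, hv3⟩ := hv
      rw [Finset.mem_sdiff]
      refine ⟨?_, hv3⟩
      rcases hE1.2 v hv1 with h | ⟨d, hd, hdv⟩
      · exact h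
      · exact absurd hdv (hisoD v hv2 d hd)
    have h1 := Finset.card_le_card hU
    have h2 := Finset.card_sdiff_add_card_eq_card hPE
    omega

end

/-- JOB COMP -/
theorem stComp : StComp := by
  intro n adj hS D hD
  obtain ⟨P, a, b, hF, hle⟩ := frame_of_dom hS hD
  rcases scan_of_frame hS hF with h | ⟨r, h, c, hc, hcle⟩
  · exact Or.inl h
  · exact Or.inr ⟨r, h, c, hc, hcle.trans hle⟩

end Pool.Agent.K7.H42.SD
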