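import Pool.Agent.K7.H42.SD.OrdAlg
import Pool.Agent.K7.H42.SD.Exch
import Pool.Agent.K7.H64.SD_SOUND

/-!
# Project SD: the assembly
-/

set_option autoImplicit false

namespace Pool.Agent.K7.H42.SD

open Pool.Agent.NPC

/-- The graph with the vertices `0, ..., n - 1` given by the list of its `n` adjacency lists
(symmetrised, loops are ignored). -/
def gr (L : List (List ℕ)) : SimpleGraph (Fin L.length) where
  Adj i j := i ≠ j ∧ (j.1 ∈ L.get i ∨ i.1 ∈ L.get j)
  symm := ⟨fun _ _ h => ⟨h.1.symm, h.2.symm⟩⟩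
  loopless := ⟨fun _ h => h.1 rfl⟩

/-- Strong comparability graphs: for some ordering `σ 0, σ 1, ...` of the vertices the adjacency
matrix has no rows `i < j` and columns `k < l` with entries `A i k = A j l = 1` and
`A i l = A j k = 0`. -/
def StrongComparability {n : ℕ} (G : SimpleGraph (Fin n)) : Prop :=
  ∃ σ : Equiv.Perm (Fin n), ∀ i j k l : Fin n, i < j → k < l →
    ¬ (G.Adj (σ i) (σ k) ∧ G.Adj (σ j) (σ l) ∧ ¬ G.Adj (σ i) (σ l) ∧ ¬ G.Adj (σ j) (σ k))

/-- There is a dominating set with at most `K` vertices. -/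
def HasDominatingSet {n : ℕ} (G : SimpleGraph (Fin n)) (K : ℕ) : Prop :=
  ∃ D : Finset (Fin n), D.card ≤ K ∧ ∀ v, v ∈ D ∨ ∃ d ∈ D, G.Adj d v

theorem adjb_iff {L : List (List ℕ)} {i j : ℕ} (hi : i < L.length) (hj : j < L.length) :
    adjb L i j = true ↔ (gr L).Adj ⟨i, hi⟩ ⟨j, hj⟩ := by
  unfold adjb gr
  simp [hi, hj, Fin.ext_iff, List.getD_eq_getElem?_getD]

theorem adjb_lt {L : List (List ℕ)} {i j : ℕ} (h : adjb L i j = true) :
    i < L.length ∧ j < L.length := by
  unfold adjb at h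
  simp only [Bool.and_eq_true, decide_eq_true_eq] at h
  exact h.1

theorem adjb_symm {L : List (List ℕ)} {i j : ℕ} (h : adjb L i j = true) : adjb L j i = true := by
  obtain ⟨hi, hj⟩ := adjb_lt h
  rw [adjb_iff hi hj] at h
  rw [adjb_iff hj hi]
  exact h.symm

theorem adjb_irr {L : List (List ℕ)} {i : ℕ} : ¬ adjb L i i = true := by
  intro h
  obtain ⟨hi, hj⟩ := adjb_lt h
  rw [adjb_iff hi hj] at h
  exact h.ne rfl

theorem impb_iff {L : List (List ℕ)} {p q : ℕ × ℕ} : impb L p q = true ↔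
    adjb L p.1 q.2 = true ∧ adjb L p.2 q.1 = true ∧ ¬ adjb L p.1 q.1 = true ∧
      ¬ adjb L p.2 q.2 = true := by
  unfold impb
  simp only [Bool.and_eq_true, Bool.not_eq_true', Bool.not_eq_true]
  tauto

theorem hasStrong_of {L : List (List ℕ)} (h : StrongComparability (gr L)) : HasStrong L := by
  obtain ⟨σ, hσ⟩ := h
  refine ⟨fun v => if hv : v < L.length then (σ.symm ⟨v, hv⟩ : Fin L.length).1 else v, ?_, ?_⟩
  · intro i j hij
    simp only at hij
    by_cases hi : i < L.length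
    · by_cases hj : j < L.length
      · rw [dif_pos hi, dif_pos hj] at hij
        have h1 := σ.symm.injective (Fin.ext hij)
        exact congrArg Fin.val h1
      · rw [dif_pos hi, dif_neg hj] at hij
        have := (σ.symm ⟨i, hi⟩).2
        omega
    · by_cases hj : j < L.length
      · rw [dif_neg hi, dif_pos hj] at hij
        have := (σ.symm ⟨j, hj⟩).2
        omega
      · rw [dif_neg hi, dif_neg hj] at hij
        exact hij
  · intro a b y x himp hab
    rw [impb_iff] at himp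
    obtain ⟨h1, h2, h3, h4⟩ := himp
    simp only at h1 h2 h3 h4
    obtain ⟨ha, hx⟩ := adjb_lt h1
    obtain ⟨hb, hy⟩ := adjb_lt h2
    simp only [dif_pos ha, dif_pos hb] at hab
    simp only [dif_pos hy, dif_pos hx]
    by_contra hcon
    rw [not_lt] at hcon
    have hne : (σ.symm ⟨x, hx⟩ : Fin L.length) ≠ σ.symm ⟨y, hy⟩ := by
      intro he
      have he2 := congrArg Fin.val (σ.symm.injective he)
      simp only at he2
      rw [he2] at h1
      exact h3 h1
    have hlt : (σ.symm ⟨x, hx⟩ : Fin L.length) < σ.symm ⟨y, hy⟩ :=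
      lt_of_le_of_ne (Fin.le_def.2 hcon) hne
    have h5 := hσ (σ.symm ⟨a, ha⟩) (σ.symm ⟨b, hb⟩) (σ.symm ⟨x, hx⟩) (σ.symm ⟨y, hy⟩)
      (Fin.lt_def.2 hab) hlt
    simp only [Equiv.apply_symm_apply] at h5
    rw [adjb_iff ha hx] at h1
    rw [adjb_iff hb hy] at h2
    rw [adjb_iff ha hy] at h3
    rw [adjb_iff hb hx] at h4
    exact h5 ⟨h1, h2, h3, h4⟩

/-- the bijection of a relabelling, as a permutation -/
def permOf (n : ℕ) (s t : ℕ → ℕ) (h1 : ∀ i < n, s i < n ∧ t (s i) = i)
    (h2 : ∀ i < n, t i < n ∧ s (t i) = i) : Equiv.Perm (Fin n) where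
  toFun i := ⟨s i, (h1 i i.2).1⟩
  invFun i := ⟨t i, (h2 i i.2).1⟩
  left_inv i := Fin.ext (h1 i i.2).2
  right_inv i := Fin.ext (h2 i i.2).2

section
variable {L L' : List (List ℕ)} {s t : ℕ → ℕ}

theorem strong_iff
    (h1 : ∀ i < L.length, s i < L.length ∧ t (s i) = i)
    (h2 : ∀ i < L.length, t i < L.length ∧ s (t i) = i)
    (h3 : ∀ i j, i < L.length → j < L.length → adjb L' i j = adjb L (s i) (s j))
    (hS : Strong L.length (fun i j => adjb L' i j = true)) : StrongComparability (gr L) := by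
  refine ⟨permOf L.length s t h1 h2, fun i j k l hij hkl => ?_⟩
  rintro ⟨a1, a2, a3, a4⟩
  have key : ∀ i j : Fin L.length, (gr L).Adj (permOf L.length s t h1 h2 i)
      (permOf L.length s t h1 h2 j) ↔ adjb L' i j = true := by
    intro i j
    rw [h3 i j i.2 j.2]
    exact (adjb_iff _ _).symm
  rw [key] at a1 a2 a3 a4
  rcases hS.free i j k l hij hkl a1 a2 with h | h
  · exact a3 h
  · exact a4 h

theorem dom_iff (h1 : ∀ i < L.length, s i < L.length ∧ t (s i) = i)
    (h2 : ∀ i < L.length, t i < L.length ∧ s (t i) = i)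
    (h3 : ∀ i j, i < L.length → j < L.length → adjb L' i j = adjb L (s i) (s j)) (K : ℕ) :
    HasDominatingSet (gr L) K ↔
      ∃ D, DomSet L.length (fun i j => adjb L' i j = true) D ∧ D.card ≤ K := by
  classical
  set σ := permOf L.length s t h1 h2 with hσ
  have key : ∀ i j : Fin L.length, (gr L).Adj (σ i) (σ j) ↔ adjb L' i j = true := by
    intro i j
    rw [h3 i j i.2 j.2]
    exact (adjb_iff _ _).symm
  constructor
  · rintro ⟨D, hD1, hD2⟩
    refine ⟨D.image (fun d => (σ.symm d : Fin L.length).1), ⟨?_, ?_⟩,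
      Finset.card_image_le.trans hD1⟩
    · intro v hv
      rw [Finset.mem_image] at hv
      obtain ⟨d, -, rfl⟩ := hv
      exact Finset.mem_range.2 (σ.symm d).2
    · intro v hv
      rcases hD2 (σ ⟨v, hv⟩) with h | ⟨d, hd, hdv⟩
      · left
        rw [Finset.mem_image]
        exact ⟨_, h, by rw [Equiv.symm_apply_apply]⟩
      · right
        refine ⟨(σ.symm d : Fin L.length).1, Finset.mem_image_of_mem _ hd, ?_⟩
        have h4 := (key (σ.symm d) ⟨v, hv⟩).1 (by rw [Equiv.apply_symm_apply]; exact hdv)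
        exact h4
  · rintro ⟨D, ⟨hD1, hD2⟩, hD3⟩
    refine ⟨(Finset.univ.filter (fun i : Fin L.length => i.1 ∈ D)).image σ, ?_, ?_⟩
    · refine Finset.card_image_le.trans (le_trans ?_ hD3)
      exact Finset.card_le_card_of_injOn (fun i => i.1)
        (fun i hi => by
          rw [Finset.mem_coe, Finset.mem_filter] at hi
          exact hi.2)
        (fun i _ j _ h => Fin.ext h)
    · intro v
      obtain ⟨i, rfl⟩ := σ.surjective v
      rcases hD2 i i.2 with h | ⟨d, hd, hdv⟩
      · left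
        exact Finset.mem_image_of_mem _ (Finset.mem_filter.2 ⟨Finset.mem_univ _, h⟩)
      · right
        have hdn : d < L.length := Finset.mem_range.1 (hD1 hd)
        refine ⟨σ ⟨d, hdn⟩, Finset.mem_image_of_mem _
          (Finset.mem_filter.2 ⟨Finset.mem_univ _, hd⟩), ?_⟩
        exact (key ⟨d, hdn⟩ i).2 hdv

end

/-- scans of larger cost -/
theorem Scan.mono {n : ℕ} {adj : ℕ → ℕ → Prop} {K K' : ℕ} (h : Scan n adj K) (hK : K ≤ K') :
    Scan n adj K' := by
  rcases h with h | ⟨r, g, c, h1, h2⟩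
  · exact Or.inl h
  · exact Or.inr ⟨r, g, c, h1, h2.trans hK⟩

/-- the adjacency matrix has no `I_2` submatrix -/
def strongb (L : List (List ℕ)) : Bool :=
  (pairs L.length).all (fun p => (pairs L.length).all (fun q =>
    !((decide (p.1 < p.2) && decide (q.1 < q.2)) && (adjb L p.1 q.1 && adjb L p.2 q.2)) ||
      (adjb L p.1 q.2 || adjb L p.2 q.1)))

theorem mem_pairs {n : ℕ} {p : ℕ × ℕ} : p ∈ pairs n ↔ p.1 < n ∧ p.2 < n := by
  unfold pairs
  simp only [List.mem_flatMap, List.mem_map, List.mem_range]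
  constructor
  · rintro ⟨i, hi, j, hj, rfl⟩
    exact ⟨hi, hj⟩
  · rintro ⟨h1, h2⟩
    exact ⟨p.1, h1, p.2, h2, rfl⟩

theorem strongb_iff {L : List (List ℕ)} : strongb L = true ↔
    Strong L.length (fun i j => adjb L i j = true) := by
  constructor
  · intro h
    refine ⟨fun i j h => (adjb_lt h).1, fun i j h => adjb_symm h, fun i h => adjb_irr h, ?_⟩
    intro i j k l hij hkl h1 h2
    obtain ⟨hi, hk⟩ := adjb_lt h1
    obtain ⟨hj, hl⟩ := adjb_lt h2
    unfold strongb at h
    rw [List.all_eq_true] at h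
    have h3 := h (i, j) (mem_pairs.2 ⟨hi, hj⟩)
    rw [List.all_eq_true] at h3
    have h4 := h3 (k, l) (mem_pairs.2 ⟨hk, hl⟩)
    simp only [h1, h2, hij, hkl, decide_true, Bool.and_true, Bool.not_true, Bool.false_or,
      Bool.or_eq_true] at h4
    exact h4
  · intro h
    unfold strongb
    rw [List.all_eq_true]
    rintro ⟨i, j⟩ -
    rw [List.all_eq_true]
    rintro ⟨k, l⟩ -
    simp only [Bool.or_eq_true, Bool.not_eq_true', Bool.and_eq_false_iff]
    by_cases hij : i < j
    · by_cases hkl : k < l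
      · by_cases h1 : adjb L i k = true
        · by_cases h2 : adjb L j l = true
          · exact Or.inr (h.free i j k l hij hkl h1 h2)
          · exact Or.inl (Or.inr (Or.inr (by simpa using h2)))
        · exact Or.inl (Or.inr (Or.inl (by simpa using h1)))
      · exact Or.inl (Or.inl (Or.inr (by simpa using hkl)))
    · exact Or.inl (Or.inl (Or.inl (by simpa using hij)))

end Pool.Agent.K7.H42.SD

namespace Pool.Agent.NPC.H42SD

open Pool.Agent.K7.H42.SD

theorem poly_pairs {α : Type} [TEnc α] {β : Type} [TEnc β] {l : α → List β} (hl : Poly l) :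
    Poly (fun a => pairs (l a).length) := by
  unfold pairs
  refine Poly.flatMap (F := fun a i => (List.range (l a).length).map (fun j => (i, j)))
    (Poly.range_length hl) ?_
  exact Poly.map (F := fun (p : α × ℕ) j => (p.2, j))
    (Poly.range_length (hl.comp (Poly.fst Poly.id)))
    (Poly.pair (Poly.snd (Poly.fst Poly.id)) (Poly.snd Poly.id))

theorem poly_adjb {α : Type} [TEnc α] {L : α → List (List ℕ)} {i j : α → ℕ} (hL : Poly L)
    (hi : Poly i) (hj : Poly j) : Poly (fun a => adjb (L a) (i a) (j a)) := by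
  unfold adjb
  exact Poly.and (Poly.and (Poly.decide_lt hi (Poly.length hL)) (Poly.decide_lt hj (Poly.length hL)))
    (Poly.and (Poly.not (Poly.decide_eq hi hj))
      (Poly.or (Poly.decide_mem hj (Poly.getD hL hi (Poly.const [])))
        (Poly.decide_mem hi (Poly.getD hL hj (Poly.const [])))))

theorem poly_strongb : Poly strongb := by
  unfold strongb
  refine Poly.all (p := fun (L : List (List ℕ)) (p : ℕ × ℕ) => (pairs L.length).all (fun q =>
    !((decide (p.1 < p.2) && decide (q.1 < q.2)) && (adjb L p.1 q.1 && adjb L p.2 q.2)) ||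
      (adjb L p.1 q.2 || adjb L p.2 q.1))) (poly_pairs Poly.id) ?_
  refine Poly.all (p := fun (x : List (List ℕ) × (ℕ × ℕ)) (q : ℕ × ℕ) =>
    !((decide (x.2.1 < x.2.2) && decide (q.1 < q.2)) &&
      (adjb x.1 x.2.1 q.1 && adjb x.1 x.2.2 q.2)) ||
      (adjb x.1 x.2.1 q.2 || adjb x.1 x.2.2 q.1)) (poly_pairs (Poly.fst Poly.id)) ?_
  have eL : Poly (fun y : (List (List ℕ) × (ℕ × ℕ)) × (ℕ × ℕ) => y.1.1) :=
    Poly.fst (Poly.fst Poly.id)
  have e1 : Poly (fun y : (List (List ℕ) × (ℕ × ℕ)) × (ℕ × ℕ) => y.1.2.1) :=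
    Poly.fst (Poly.snd (Poly.fst Poly.id))
  have e2 : Poly (fun y : (List (List ℕ) × (ℕ × ℕ)) × (ℕ × ℕ) => y.1.2.2) :=
    Poly.snd (Poly.snd (Poly.fst Poly.id))
  have e3 : Poly (fun y : (List (List ℕ) × (ℕ × ℕ)) × (ℕ × ℕ) => y.2.1) :=
    Poly.fst (Poly.snd Poly.id)
  have e4 : Poly (fun y : (List (List ℕ) × (ℕ × ℕ)) × (ℕ × ℕ) => y.2.2) :=
    Poly.snd (Poly.snd Poly.id)
  exact Poly.or (Poly.not (Poly.and (Poly.and (Poly.decide_lt e1 e2) (Poly.decide_lt e3 e4))
    (Poly.and (poly_adjb eL e1 e3) (poly_adjb eL e2 e4))))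
    (Poly.or (poly_adjb eL e1 e4) (poly_adjb eL e2 e3))

end Pool.Agent.NPC.H42SD

namespace Pool.Agent.K7.H42.SD

open Pool.Agent.NPC

/-- the statement on the ordering: the final relation can be computed in polynomial time -/
def StRel : Prop := ∃ f : List (List ℕ) → List (ℕ × ℕ), NPC.Poly f ∧
  ∀ L, HasStrong L → Fin1 L (f L)

/-- the relabelling is polynomial-time computable -/
def StPRelab : Prop := NPC.Poly (fun p : List (List ℕ) × List (ℕ × ℕ) => relab p.1 p.2)

/-- the assembly -/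
theorem main (hA : StAlg) (hSo : StSound) (hCo : StComp) (hRel : StRel) (hR : StRelab)
    (hPR : StPRelab) :
    InPP (fun I : Inst => StrongComparability (gr I.1) ∧ HasDominatingSet (gr I.1) I.2) := by
  obtain ⟨d, hd, hdI⟩ := hA
  obtain ⟨f, hf, hfin⟩ := hRel
  have hrel1 : NPC.Poly (fun I : Inst => relab I.1 (f I.1)) :=
    NPC.Poly.comp (g := fun p : List (List ℕ) × List (ℕ × ℕ) => relab p.1 p.2)
      (f := fun I : Inst => (I.1, f I.1)) hPR
      (NPC.Poly.pair (NPC.Poly.fst NPC.Poly.id) (hf.comp (NPC.Poly.fst NPC.Poly.id)))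
  refine inPP_of (d := fun I : Inst => strongb (relab I.1 (f I.1)) &&
    d (relab I.1 (f I.1), I.2)) (NPC.Poly.and (NPC.Poly.comp H42SD.poly_strongb hrel1)
      (NPC.Poly.comp hd (NPC.Poly.pair hrel1 (NPC.Poly.snd NPC.Poly.id)))) ?_
  intro I
  obtain ⟨hlen, ⟨s, t, h1, h2, h3⟩, hstr⟩ := hR I.1 (f I.1)
  rw [Bool.and_eq_true, hdI, strongb_iff]
  simp only [hlen]
  have hback : StrongComparability (gr I.1) →
      Strong I.1.length (fun i j => adjb (relab I.1 (f I.1)) i j = true) := fun h =>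
    hstr (hfin I.1 (hasStrong_of h))
  constructor
  · rintro ⟨h4, h5⟩
    have h6 := hback h4
    refine ⟨h6, ?_⟩
    obtain ⟨D, hD1, hD2⟩ := (dom_iff h1 h2 h3 I.2).1 h5
    exact (hCo _ _ h6 D hD1).mono hD2
  · rintro ⟨h4, h5⟩
    refine ⟨strong_iff h1 h2 h3 h4, ?_⟩
    exact (dom_iff h1 h2 h3 I.2).2 (hSo _ _ _ h5)

end Pool.Agent.K7.H42.SD
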