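import Pool.Agent.K7.H42.SD.Defs

/-!
# Project SD: the computation of a strong ordering: list functions and job statements
-/

set_option autoImplicit false

namespace Pool.Agent.K7.H42.SD

open Pool.Agent.NPC

/-- all pairs of vertices -/
def pairs (n : ℕ) : List (ℕ × ℕ) :=
  (List.range n).flatMap (fun i => (List.range n).map (fun j => (i, j)))

/-- the implication `(a, b) → (y, x)` (`p = (a, b)`, `q = (y, x)`): `a ~ x`, `b ~ y`, `a ≁ y`,
`b ≁ x`; this is `Pool.Agent.K7.H81.SD.G` -/
def impb (L : List (List ℕ)) (p q : ℕ × ℕ) : Bool :=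
  (adjb L p.1 q.2 && adjb L p.2 q.1) && (!(adjb L p.1 q.1) && !(adjb L p.2 q.2))

/-- one round of the closure under the implications and transitivity -/
def rnd (L : List (List ℕ)) (S : List (ℕ × ℕ)) : List (ℕ × ℕ) :=
  (pairs L.length).filter (fun e => S.any (fun f => decide (f = e) || (impb L f e ||
    (decide (f.1 = e.1) && S.any (fun g => decide (g.1 = f.2) && decide (g.2 = e.2))))))

/-- the closure -/
def close (L : List (List ℕ)) (S : List (ℕ × ℕ)) : List (ℕ × ℕ) :=
  (rnd L)^[(pairs L.length).length] S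

/-- no pair `(a, a)` -/
def irr (S : List (ℕ × ℕ)) : Bool := S.all (fun e => !(decide (e.1 = e.2)))

/-- the pair `e` implies something -/
def ntb (L : List (List ℕ)) (e : ℕ × ℕ) : Bool := (pairs L.length).any (fun q => impb L e q)

/-- one step of the greedy algorithm -/
def stepD (L : List (List ℕ)) (D : List (ℕ × ℕ)) (e : ℕ × ℕ) : List (ℕ × ℕ) :=
  if ntb L e then
    (if irr (close L (e :: D)) then close L (e :: D)
      else (if irr (close L ((e.2, e.1) :: D)) then close L ((e.2, e.1) :: D) else D))
  else D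

/-- the final relation -/
def finD (L : List (List ℕ)) : List (ℕ × ℕ) :=
  (pairs L.length).foldr (fun e D => stepD L D e) []

/-- number of the predecessors -/
def key (n : ℕ) (D : List (ℕ × ℕ)) (v : ℕ) : ℕ :=
  ((List.range n).filter (fun u => decide ((u, v) ∈ D))).length

/-- the position of `v`: by the number of predecessors, then by the number -/
def pos (n : ℕ) (D : List (ℕ × ℕ)) (v : ℕ) : ℕ :=
  ((List.range n).filter (fun u => decide (key n D u < key n D v) ||
    (decide (key n D u = key n D v) && decide (u < v)))).length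

/-- the vertex at position `i` -/
def atp (n : ℕ) (D : List (ℕ × ℕ)) (i : ℕ) : ℕ :=
  ((List.range n).filter (fun v => decide (pos n D v = i))).headD 0

/-- the relabelled graph: vertex `i` is the old vertex `atp i` -/
def relab (L : List (List ℕ)) (D : List (ℕ × ℕ)) : List (List ℕ) :=
  (List.range L.length).map (fun i => (List.range L.length).filter
    (fun j => adjb L (atp L.length D i) (atp L.length D j)))

/-- the least closed relation -/
inductive Clo (L : List (List ℕ)) (S : List (ℕ × ℕ)) : ℕ → ℕ → Prop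
  | base {a b : ℕ} : (a, b) ∈ S → Clo L S a b
  | imp {a b y x : ℕ} : Clo L S a b → impb L (a, b) (y, x) = true → Clo L S y x
  | trans {a b c : ℕ} : Clo L S a b → Clo L S b c → Clo L S a c

/-- JOB CLOSE: the list function computes the closure -/
def StClose : Prop := ∀ (L : List (List ℕ)) (S : List (ℕ × ℕ)),
  (∀ e ∈ S, e.1 < L.length ∧ e.2 < L.length) → ∀ a b : ℕ, (a, b) ∈ close L S ↔ Clo L S a b

/-- the graph has a strong ordering, given by ranks -/
def HasStrong (L : List (List ℕ)) : Prop := ∃ r : ℕ → ℕ, (∀ i j, r i = r j → i = j) ∧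
  ∀ a b y x, impb L (a, b) (y, x) = true → r a < r b → r y < r x

/-- the properties of the final relation -/
structure Fin1 (L : List (List ℕ)) (D : List (ℕ × ℕ)) : Prop where
  lt : ∀ e ∈ D, e.1 < L.length ∧ e.2 < L.length
  irr : ∀ a, (a, a) ∉ D
  trans : ∀ a b c, (a, b) ∈ D → (b, c) ∈ D → (a, c) ∈ D
  closed : ∀ a b y x, (a, b) ∈ D → impb L (a, b) (y, x) = true → (y, x) ∈ D
  dec : ∀ a b y x, impb L (a, b) (y, x) = true → (a, b) ∈ D ∨ (b, a) ∈ D

/-- JOB GREEDY (uses `Pool.Agent.K7.H81.SD.ext`) -/
def StGreedy : Prop := StClose → ∀ L : List (List ℕ), HasStrong L → Fin1 L (finD L)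

/-- JOB RELAB: the relabelled graph has the strong ordering `0, ..., n - 1`, and it is isomorphic to
the old one -/
def StRelab : Prop := ∀ (L : List (List ℕ)) (D : List (ℕ × ℕ)),
  (relab L D).length = L.length ∧
  (∃ s t : ℕ → ℕ, (∀ i < L.length, s i < L.length ∧ t (s i) = i) ∧
    (∀ i < L.length, t i < L.length ∧ s (t i) = i) ∧
    ∀ i j, i < L.length → j < L.length → adjb (relab L D) i j = adjb L (s i) (s j)) ∧
  (Fin1 L D → Strong L.length (fun i j => adjb (relab L D) i j = true))

/-- JOB PCLOSE -/
def StPClose : Prop := Poly (fun p : List (List ℕ) × List (ℕ × ℕ) => close p.1 p.2)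

/-- JOB PFIN -/
def StPFin : Prop := StPClose → Poly (fun L : List (List ℕ) => relab L (finD L))

end Pool.Agent.K7.H42.SD
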