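import Pool.Agent.K7.H42.SD.Defs

/-!
# Project SD: the schedule
-/

set_option autoImplicit false

namespace Pool.Agent.K7.H42.SD

/-- no vertex of `P` is adjacent to `k` -/
def Iso (adj : ℕ → ℕ → Prop) (P : Finset ℕ) (k : ℕ) : Prop := ∀ x ∈ P, ¬ adj x k

/-- a set `P` with the smallest and largest private neighbours, without conflicts -/
structure Frame (n : ℕ) (adj : ℕ → ℕ → Prop) (P : Finset ℕ) (a b : ℕ → ℕ) : Prop where
  lt : ∀ k ∈ P, k < n
  blt : ∀ k ∈ P, b k < n
  aadj : ∀ k ∈ P, adj k (a k)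
  badj : ∀ k ∈ P, adj k (b k)
  bpriv : ∀ k ∈ P, ∀ k' ∈ P, k' ≠ k → ¬ adj k' (b k)
  ab : ∀ k ∈ P, a k ≤ b k
  ord : ∀ k ∈ P, ∀ k' ∈ P, k < k' → b k' < a k
  nc1 : ∀ k ∈ P, ∀ k' ∈ P, k < k' → Iso adj P k → Iso adj P k' → ¬ (b k' < k ∧ k' < a k)
  nc2 : ∀ k ∈ P, ∀ k' ∈ P, k < k' → Iso adj P k → Iso adj P k' → ¬ (k < a k' ∧ b k < k')

/-- first window type -/
def T1 (P : Finset ℕ) (b : ℕ → ℕ) (k i : ℕ) : Prop := i ≤ b k ∧ ∀ k' ∈ P, k < k' → b k' < i

/-- second window type -/
def T2 (P : Finset ℕ) (b : ℕ → ℕ) (k i : ℕ) : Prop := b k < i ∧ ∀ k' ∈ P, k' < k → i ≤ b k'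

section
variable {n : ℕ} {adj : ℕ → ℕ → Prop} {P : Finset ℕ} {a b : ℕ → ℕ}

theorem Frame.anti (hF : Frame n adj P a b) {k k' : ℕ} (hk : k ∈ P) (hk' : k' ∈ P) (h : k < k') :
    b k' < b k := (hF.ord k hk k' hk' h).trans_le (hF.ab k hk)

open Classical in
/-- first register -/
noncomputable def w1 (n : ℕ) (P : Finset ℕ) (b : ℕ → ℕ) (i : ℕ) : ℕ :=
  if h : ∃ k, k ∈ P ∧ T1 P b k i then h.choose else n

open Classical in
/-- second register -/
noncomputable def w2 (n : ℕ) (P : Finset ℕ) (b : ℕ → ℕ) (i : ℕ) : ℕ :=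
  if h : ∃ k, k ∈ P ∧ T2 P b k i then h.choose else n

theorem w1_eq {k i : ℕ} (hk : k ∈ P) (h : T1 P b k i) : w1 n P b i = k := by
  have hex : ∃ k, k ∈ P ∧ T1 P b k i := ⟨k, hk, h⟩
  rw [w1, dif_pos hex]
  obtain ⟨h1, h2⟩ := hex.choose_spec
  rcases lt_trichotomy hex.choose k with h3 | h3 | h3
  · have := h2.2 k hk h3
    have := h.1
    omega
  · exact h3
  · have := h.2 _ h1 h3
    have := h2.1
    omega

theorem w2_eq {k i : ℕ} (hk : k ∈ P) (h : T2 P b k i) : w2 n P b i = k := by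
  have hex : ∃ k, k ∈ P ∧ T2 P b k i := ⟨k, hk, h⟩
  rw [w2, dif_pos hex]
  obtain ⟨h1, h2⟩ := hex.choose_spec
  rcases lt_trichotomy hex.choose k with h3 | h3 | h3
  · have := h.2 _ h1 h3
    have := h2.1
    omega
  · exact h3
  · have := h2.2 k hk h3
    have := h.1
    omega

theorem w1_lt {i : ℕ} (h : w1 n P b i < n) : w1 n P b i ∈ P ∧ T1 P b (w1 n P b i) i := by
  by_cases hex : ∃ k, k ∈ P ∧ T1 P b k i
  · rw [w1, dif_pos hex]
    exact hex.choose_spec
  · rw [w1, dif_neg hex] at h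
    exact absurd h (lt_irrefl _)

theorem w2_lt {i : ℕ} (h : w2 n P b i < n) : w2 n P b i ∈ P ∧ T2 P b (w2 n P b i) i := by
  by_cases hex : ∃ k, k ∈ P ∧ T2 P b k i
  · rw [w2, dif_pos hex]
    exact hex.choose_spec
  · rw [w2, dif_neg hex] at h
    exact absurd h (lt_irrefl _)

/-- the registers -/
noncomputable def reg (n : ℕ) (P : Finset ℕ) (b : ℕ → ℕ) (lo hi : ℕ) : Reg :=
  ((w1 n P b lo, w2 n P b lo), (w1 n P b hi, w2 n P b hi))

/-- the window -/
def W (P : Finset ℕ) (b : ℕ → ℕ) (k i : ℕ) : Prop := k ∈ P ∧ (T1 P b k i ∨ T2 P b k i)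

theorem mem_reg {lo hi x : ℕ} (hx : x < n) (h : (reg n P b lo hi).mem x) :
    W P b x lo ∨ W P b x hi := by
  rcases h with h | h | h | h
  · have h1 : w1 n P b lo = x := h.symm
    have := w1_lt (n := n) (P := P) (b := b) (i := lo) (h1 ▸ hx)
    rw [h1] at this
    exact Or.inl ⟨this.1, Or.inl this.2⟩
  · have h1 : w2 n P b lo = x := h.symm
    have := w2_lt (n := n) (P := P) (b := b) (i := lo) (h1 ▸ hx)
    rw [h1] at this
    exact Or.inl ⟨this.1, Or.inr this.2⟩
  · have h1 : w1 n P b hi = x := h.symm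
    have := w1_lt (n := n) (P := P) (b := b) (i := hi) (h1 ▸ hx)
    rw [h1] at this
    exact Or.inr ⟨this.1, Or.inl this.2⟩
  · have h1 : w2 n P b hi = x := h.symm
    have := w2_lt (n := n) (P := P) (b := b) (i := hi) (h1 ▸ hx)
    rw [h1] at this
    exact Or.inr ⟨this.1, Or.inr this.2⟩

theorem reg_mem {lo hi x : ℕ} (h : W P b x lo ∨ W P b x hi) : (reg n P b lo hi).mem x := by
  rcases h with ⟨h1, h2 | h2⟩ | ⟨h1, h2 | h2⟩
  · exact Or.inl (w1_eq h1 h2).symm
  · exact Or.inr (Or.inl (w2_eq h1 h2).symm)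
  · exact Or.inr (Or.inr (Or.inl (w1_eq h1 h2).symm))
  · exact Or.inr (Or.inr (Or.inr (w2_eq h1 h2).symm))

open Classical in
/-- the acquired vertices -/
noncomputable def Cs (P : Finset ℕ) (b : ℕ → ℕ) (lo hi : ℕ) : Finset ℕ :=
  P.filter (fun k => (∀ k' ∈ P, k < k' → b k' < lo) ∨ (∀ k' ∈ P, k' < k → hi ≤ b k'))

open Classical in
/-- the vertices that have to be paid as rows -/
noncomputable def Us (n : ℕ) (adj : ℕ → ℕ → Prop) (P : Finset ℕ) : Finset ℕ :=
  (Finset.range n).filter (fun v => Iso adj P v ∧ v ∉ P)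

/-- the paid rows -/
noncomputable def Bs (n : ℕ) (adj : ℕ → ℕ → Prop) (P : Finset ℕ) (lo hi : ℕ) : Finset ℕ :=
  (Us n adj P).filter (fun v => v < lo ∨ hi < v)

theorem mem_Cs {lo hi k : ℕ} : k ∈ Cs P b lo hi ↔ k ∈ P ∧
    ((∀ k' ∈ P, k < k' → b k' < lo) ∨ (∀ k' ∈ P, k' < k → hi ≤ b k')) := by
  unfold Cs; rw [Finset.mem_filter]

theorem W_Cs_lo (hF : Frame n adj P a b) {lo hi k : ℕ} (h : W P b k lo) : k ∈ Cs P b lo hi := by
  rw [mem_Cs]
  refine ⟨h.1, Or.inl fun k' hk' hlt => ?_⟩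
  rcases h.2 with h1 | h1
  · exact h1.2 k' hk' hlt
  · exact (hF.anti h.1 hk' hlt).trans h1.1

theorem W_Cs_hi (hF : Frame n adj P a b) {lo hi k : ℕ} (h : W P b k hi) : k ∈ Cs P b lo hi := by
  rw [mem_Cs]
  refine ⟨h.1, Or.inr fun k' hk' hlt => ?_⟩
  rcases h.2 with h1 | h1
  · exact h1.1.trans (hF.anti hk' h.1 hlt).le
  · exact h1.2 k' hk' hlt

/-- nothing is acquired twice (bottom) -/
theorem once_bot {lo hi k : ℕ} (hlt : lo < hi) (h : W P b k (lo + 1)) (hC : k ∈ Cs P b lo hi) :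
    W P b k lo ∨ W P b k hi := by
  rw [mem_Cs] at hC
  obtain ⟨hk, h1⟩ := h
  rcases hC.2 with hA | hB
  · left
    refine ⟨hk, ?_⟩
    by_cases h2 : lo ≤ b k
    · exact Or.inl ⟨h2, hA⟩
    · right
      rcases h1 with h1 | h1
      · have := h1.1; omega
      · exact ⟨by omega, fun k' hk' hl => by have := h1.2 k' hk' hl; omega⟩
  · right
    refine ⟨hk, ?_⟩
    by_cases h2 : hi ≤ b k
    · left
      refine ⟨h2, fun k' hk' hl => ?_⟩
      rcases h1 with h1 | h1
      · have := h1.2 k' hk' hl; omega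
      · have := h1.1; omega
    · exact Or.inr ⟨by omega, hB⟩

/-- nothing is acquired twice (top) -/
theorem once_top {lo hi k : ℕ} (hle : lo ≤ hi) (h : W P b k hi) (hC : k ∈ Cs P b lo (hi + 1)) :
    W P b k lo ∨ W P b k (hi + 1) := by
  rw [mem_Cs] at hC
  obtain ⟨hk, h1⟩ := h
  rcases hC.2 with hA | hB
  · left
    refine ⟨hk, ?_⟩
    by_cases h2 : lo ≤ b k
    · exact Or.inl ⟨h2, hA⟩
    · right
      rcases h1 with h1 | h1
      · have := h1.1; omega
      · exact ⟨by omega, fun k' hk' hl => by have := h1.2 k' hk' hl; omega⟩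
  · right
    refine ⟨hk, ?_⟩
    by_cases h2 : hi + 1 ≤ b k
    · left
      refine ⟨h2, fun k' hk' hl => ?_⟩
      rcases h1 with h1 | h1
      · have := h1.2 k' hk' hl; omega
      · have := h1.1; omega
    · exact Or.inr ⟨by omega, hB⟩

theorem Cs_mono {lo hi lo' hi' : ℕ} (h1 : lo ≤ lo') (h2 : hi' ≤ hi) :
    Cs P b lo hi ⊆ Cs P b lo' hi' := by
  intro k hk
  rw [mem_Cs] at hk ⊢
  refine ⟨hk.1, ?_⟩
  rcases hk.2 with h | h
  · exact Or.inl fun k' hk' hl => (h k' hk' hl).trans_le h1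
  · exact Or.inr fun k' hk' hl => h2.trans (h k' hk' hl)

theorem newc_bot (hF : Frame n adj P a b) {lo hi : ℕ} (hlt : lo < hi) :
    newc n (reg n P b lo hi) (reg n P b (lo + 1) hi) + (Cs P b lo hi).card ≤
      (Cs P b (lo + 1) hi).card := by
  classical
  have h1 : (Finset.range n).filter (fun x => (reg n P b (lo + 1) hi).mem x ∧
      ¬ (reg n P b lo hi).mem x) ⊆ Cs P b (lo + 1) hi \ Cs P b lo hi := by
    intro x hx
    rw [Finset.mem_filter, Finset.mem_range] at hx
    obtain ⟨hx1, hx2, hx3⟩ := hx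
    have h2 : W P b x (lo + 1) := by
      rcases mem_reg hx1 hx2 with h | h
      · exact h
      · exact absurd (reg_mem (Or.inr h)) hx3
    rw [Finset.mem_sdiff]
    exact ⟨W_Cs_lo hF h2, fun h => hx3 (reg_mem (once_bot hlt h2 h))⟩
  have h2 := Finset.card_le_card h1
  have h3 := Finset.card_sdiff_add_card_eq_card (Cs_mono (P := P) (b := b) (Nat.le_add_right lo 1)
    (le_refl hi))
  unfold newc
  omega

theorem newc_top (hF : Frame n adj P a b) {lo hi : ℕ} (hle : lo ≤ hi) :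
    newc n (reg n P b lo (hi + 1)) (reg n P b lo hi) + (Cs P b lo (hi + 1)).card ≤
      (Cs P b lo hi).card := by
  classical
  have h1 : (Finset.range n).filter (fun x => (reg n P b lo hi).mem x ∧
      ¬ (reg n P b lo (hi + 1)).mem x) ⊆ Cs P b lo hi \ Cs P b lo (hi + 1) := by
    intro x hx
    rw [Finset.mem_filter, Finset.mem_range] at hx
    obtain ⟨hx1, hx2, hx3⟩ := hx
    have h2 : W P b x hi := by
      rcases mem_reg hx1 hx2 with h | h
      · exact absurd (reg_mem (Or.inl h)) hx3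
      · exact h
    rw [Finset.mem_sdiff]
    exact ⟨W_Cs_hi hF h2, fun h => hx3 (reg_mem (once_top hle h2 h))⟩
  have h2 := Finset.card_le_card h1
  have h3 := Finset.card_sdiff_add_card_eq_card (Cs_mono (P := P) (b := b) (le_refl lo)
    (Nat.le_add_right hi 1))
  unfold newc
  omega

/-- the window dominates its row -/
theorem window (hS : Strong n adj) (hF : Frame n adj P a b) {i k : ℕ} (hk : k ∈ P)
    (h : adj k i) : ∃ x, W P b x i ∧ adj x i := by
  classical
  by_cases h1 : i ≤ b k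
  · -- the largest `x` with `i ≤ b x`
    obtain ⟨x, hx, hmax⟩ := Finset.exists_max_image (P.filter (fun x => i ≤ b x)) id
      ⟨k, Finset.mem_filter.2 ⟨hk, h1⟩⟩
    rw [Finset.mem_filter] at hx
    have hkx : k ≤ x := hmax k (Finset.mem_filter.2 ⟨hk, h1⟩)
    refine ⟨x, ⟨hx.1, Or.inl ⟨hx.2, fun k' hk' hl => ?_⟩⟩, ?_⟩
    · by_contra h2
      have := hmax k' (Finset.mem_filter.2 ⟨hk', not_lt.1 h2⟩)
      simp only [id] at this
      omega
    · rcases hkx.eq_or_lt with rfl | hlt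
      · exact h
      · rcases hx.2.eq_or_lt with he | hl
        · rw [he]; exact hF.badj x hx.1
        · rcases hS.free k x i (b x) hlt hl h (hF.badj x hx.1) with h3 | h3
          · exact absurd h3 (hF.bpriv x hx.1 k hk hlt.ne)
          · exact h3
  · obtain ⟨x, hx, hmin⟩ := Finset.exists_min_image (P.filter (fun x => b x < i)) id
      ⟨k, Finset.mem_filter.2 ⟨hk, not_le.1 h1⟩⟩
    rw [Finset.mem_filter] at hx
    have hkx : x ≤ k := hmin k (Finset.mem_filter.2 ⟨hk, not_le.1 h1⟩)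
    refine ⟨x, ⟨hx.1, Or.inr ⟨hx.2, fun k' hk' hl => ?_⟩⟩, ?_⟩
    · by_contra h2
      have := hmin k' (Finset.mem_filter.2 ⟨hk', not_le.1 h2⟩)
      simp only [id] at this
      omega
    · rcases hkx.eq_or_lt with rfl | hlt
      · exact h
      · rcases hS.free x k (b x) i hlt hx.2 (hF.badj x hx.1) h with h3 | h3
        · exact h3
        · exact absurd h3 (hF.bpriv x hx.1 k hk hlt.ne')

theorem T1_of (hF : Frame n adj P a b) {k i : ℕ} (hk : k ∈ P) (h1 : a k ≤ i) (h2 : i ≤ b k) :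
    W P b k i :=
  ⟨hk, Or.inl ⟨h2, fun k' hk' hl => (hF.ord k hk k' hk' hl).trans_le h1⟩⟩

/-- the cost of a row -/
theorem und_le {h : Reg} {r : ℕ} : und n adj h r ≤ 1 := by
  unfold und; split_ifs <;> omega

theorem und_eq {h : Reg} {r : ℕ} (hd : Domd n adj h r) : und n adj h r = 0 := by
  unfold und; rw [if_pos hd]

/-- isolated early vertices -/
def Ea (adj : ℕ → ℕ → Prop) (P : Finset ℕ) (a : ℕ → ℕ) (k : ℕ) : Prop :=
  k ∈ P ∧ Iso adj P k ∧ k < a k

/-- isolated late vertices -/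
def La (adj : ℕ → ℕ → Prop) (P : Finset ℕ) (b : ℕ → ℕ) (k : ℕ) : Prop :=
  k ∈ P ∧ Iso adj P k ∧ b k < k

/-- the row `r` is dominated or has to be paid -/
theorem row_cases (hS : Strong n adj) (hF : Frame n adj P a b) {lo hi r : ℕ} (hr : r < n)
    (h0 : r = lo ∨ r = hi) (hE : Ea adj P a r → W P b r lo ∨ W P b r hi)
    (hL : La adj P b r → W P b r lo ∨ W P b r hi) :
    r ∈ Us n adj P ∨ und n adj (reg n P b lo hi) r = 0 := by
  classical
  by_cases hI : Iso adj P r
  · by_cases hP : r ∈ P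
    · right
      apply und_eq
      refine ⟨r, hr, reg_mem ?_, Or.inl rfl⟩
      by_cases h1 : r < a r
      · exact hE ⟨hP, hI, h1⟩
      · by_cases h2 : b r < r
        · exact hL ⟨hP, hI, h2⟩
        · have h3 := T1_of hF hP (not_lt.1 h1) (not_lt.1 h2)
          rcases h0 with rfl | rfl
          · exact Or.inl h3
          · exact Or.inr h3
    · left
      unfold Us
      rw [Finset.mem_filter, Finset.mem_range]
      exact ⟨hr, hI, hP⟩
  · right
    unfold Iso at hI
    push Not at hI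
    obtain ⟨k, hk, hkr⟩ := hI
    obtain ⟨x, hx, hxr⟩ := window hS hF hk hkr
    apply und_eq
    refine ⟨x, hF.lt x hx.1, reg_mem ?_, Or.inr hxr⟩
    rcases h0 with rfl | rfl
    · exact Or.inl hx
    · exact Or.inr hx

theorem Bs_mono {lo hi lo' hi' : ℕ} (h1 : lo ≤ lo') (h2 : hi' ≤ hi) :
    Bs n adj P lo hi ⊆ Bs n adj P lo' hi' := by
  intro v hv
  unfold Bs at hv ⊢
  rw [Finset.mem_filter] at hv ⊢
  exact ⟨hv.1, by omega⟩

theorem Bs_card {lo hi lo' hi' r : ℕ} (h1 : lo ≤ lo') (h2 : hi' ≤ hi) (h3 : lo ≤ r)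
    (h4 : r ≤ hi) (h5 : r < lo' ∨ hi' < r) (hr : r ∈ Us n adj P) :
    (Bs n adj P lo hi).card + 1 ≤ (Bs n adj P lo' hi').card := by
  classical
  have h6 : insert r (Bs n adj P lo hi) ⊆ Bs n adj P lo' hi' := by
    intro v hv
    rw [Finset.mem_insert] at hv
    rcases hv with rfl | hv
    · unfold Bs
      rw [Finset.mem_filter]
      exact ⟨hr, h5⟩
    · exact Bs_mono h1 h2 hv
  have h7 : r ∉ Bs n adj P lo hi := by
    unfold Bs
    rw [Finset.mem_filter]
    omega
  have h8 := Finset.card_le_card h6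
  rw [Finset.card_insert_of_notMem h7] at h8
  exact h8

/-- the invariant -/
structure Inv (n : ℕ) (adj : ℕ → ℕ → Prop) (P : Finset ℕ) (a b : ℕ → ℕ) (lo hi : ℕ) : Prop where
  le : lo ≤ hi
  lt : hi < n
  i1 : ∀ k, Ea adj P a k → lo ≤ k → a k ≤ hi
  i2 : ∀ k, La adj P b k → k ≤ hi → lo ≤ b k
  ex : ∃ c, Reach n adj lo hi (reg n P b lo hi) c ∧
    c ≤ (Cs P b lo hi).card + (Bs n adj P lo hi).card

theorem early_late (hF : Frame n adj P a b) {k k' : ℕ} (h : Ea adj P a k) (h' : La adj P b k') :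
    k < k' := by
  obtain ⟨h1, h2, h3⟩ := h
  obtain ⟨h4, h5, h6⟩ := h'
  have e1 := hF.ab k h1
  have e2 := hF.ab k' h4
  rcases lt_trichotomy k k' with h | h | h
  · exact h
  · subst h; omega
  · have := hF.ord k' h4 k h1 h
    omega

theorem step_bot (hS : Strong n adj) (hF : Frame n adj P a b) {lo hi : ℕ} (hlt : lo < hi)
    (hI : Inv n adj P a b lo hi)
    (hR : (∃ k, Ea adj P a k ∧ lo ≤ k ∧ hi ≤ a k) ∨ (∃ k, La adj P b k ∧ lo < a k ∧ hi ≤ k)) :
    Inv n adj P a b (lo + 1) hi := by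
  obtain ⟨hle, hn, i1, i2, c, hc, hcle⟩ := hI
  have hrow := row_cases hS hF (lo := lo) (hi := hi) (r := lo) (by omega) (Or.inl rfl)
    (by
      intro hE
      right
      refine T1_of hF hE.1 (i1 lo hE le_rfl) ?_
      rcases hR with ⟨k, hk, h1, h2⟩ | ⟨k, hk, h1, h2⟩
      · rcases h1.eq_or_lt with rfl | h3
        · exact h2.trans (hF.ab _ hE.1)
        · have e1 := hF.ord lo hE.1 k hk.1 h3
          have e2 := hF.ab k hk.1
          have e3 := hF.ab lo hE.1
          omega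
      · have e1 := hF.nc2 lo hE.1 k hk.1 (early_late hF hE hk) hE.2.1 hk.2.1
        omega)
    (by
      intro hL
      exfalso
      rcases hR with ⟨k, hk, h1, h2⟩ | ⟨k, hk, h1, h2⟩
      · have := early_late hF hk hL
        omega
      · have e1 := hF.ab lo hL.1
        have e2 := hF.ab k hk.1
        have e3 := hL.2.2
        rcases lt_trichotomy lo k with h | h | h
        · have := hF.ord lo hL.1 k hk.1 h
          omega
        · subst h; omega
        · omega)
  refine ⟨by omega, hn, fun k hk h1 => i1 k hk (by omega), ?_, _,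
    Reach.bot (reg n P b (lo + 1) hi) hc hlt, ?_⟩
  · intro k hk h1
    have h2 := i2 k hk h1
    by_contra h3
    have h4 : lo = b k := by omega
    rcases hR with ⟨k', hk', h5, h6⟩ | ⟨k', hk', h5, h6⟩
    · have e1 := early_late hF hk' hk
      have e2 := hF.nc1 k' hk'.1 k hk.1 e1 hk'.2.1 hk.2.1
      have e3 : b k ≠ k' := fun h => hk'.2.1 k hk.1 (h ▸ hF.badj k hk.1)
      have e4 : a k' ≠ k := fun h => hk.2.1 k' hk'.1 (h ▸ hF.aadj k' hk'.1)
      omega
    · have e1 := hF.ab k hk.1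
      have e2 := hF.ab k' hk'.1
      rcases lt_trichotomy k k' with h | h | h
      · have := hF.ord k hk.1 k' hk'.1 h
        omega
      · subst h; omega
      · omega
  · have h1 := newc_bot hF hlt (P := P) (b := b)
    have h2 := Finset.card_le_card (Bs_mono (n := n) (adj := adj) (P := P) (Nat.le_add_right lo 1)
      (le_refl hi))
    rcases hrow with h | h
    · have h3 := Bs_card (n := n) (adj := adj) (P := P) (Nat.le_add_right lo 1) (le_refl hi)
        (le_refl lo) hle (Or.inl (Nat.lt_succ_self lo)) h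
      have h4 := und_le (n := n) (adj := adj) (h := reg n P b lo hi) (r := lo)
      omega
    · omega

theorem step_top (hS : Strong n adj) (hF : Frame n adj P a b) {lo hi : ℕ} (hle : lo ≤ hi)
    (hI : Inv n adj P a b lo (hi + 1))
    (hR : ¬ ((∃ k, Ea adj P a k ∧ lo ≤ k ∧ hi + 1 ≤ a k) ∨
      (∃ k, La adj P b k ∧ lo < a k ∧ hi + 1 ≤ k))) :
    Inv n adj P a b lo hi := by
  obtain ⟨-, hn, i1, i2, c, hc, hcle⟩ := hI
  rw [not_or] at hR
  obtain ⟨hR1, hR2⟩ := hR
  push Not at hR1 hR2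
  have hrow := row_cases hS hF (lo := lo) (hi := hi + 1) (r := hi + 1) hn (Or.inr rfl)
    (by
      intro hE
      exfalso
      have e1 := hR1 _ hE (by omega)
      have e2 := hE.2.2
      omega)
    (by
      intro hL
      left
      refine T1_of hF hL.1 ?_ (i2 _ hL le_rfl)
      by_contra h
      have := hR2 _ hL (not_le.1 h)
      omega)
  refine ⟨hle, by omega, fun k hk h1 => ?_, fun k hk h1 => i2 k hk (by omega), _,
    Reach.top (reg n P b lo hi) hc hle, ?_⟩
  · have := hR1 k hk h1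
    omega
  · have h1 := newc_top hF hle (P := P) (b := b)
    have h2 := Finset.card_le_card (Bs_mono (n := n) (adj := adj) (P := P) (le_refl lo)
      (Nat.le_add_right hi 1))
    rcases hrow with h | h
    · have h3 := Bs_card (n := n) (adj := adj) (P := P) (le_refl lo) (Nat.le_add_right hi 1)
        (by omega) (le_refl (hi + 1)) (Or.inr (Nat.lt_succ_self hi)) h
      have h4 := und_le (n := n) (adj := adj) (h := reg n P b lo (hi + 1)) (r := hi + 1)
      omega
    · omega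

theorem run (hS : Strong n adj) (hF : Frame n adj P a b) : ∀ d lo hi, hi = lo + d →
    Inv n adj P a b lo hi → Scan n adj (P.card + (Us n adj P).card) := by
  intro d
  induction d with
  | zero =>
    intro lo hi h hI
    obtain ⟨hle, hn, i1, i2, c, hc, hcle⟩ := hI
    rw [Nat.add_zero] at h
    have h := h.symm
    subst h
    have hrow := row_cases hS hF (lo := lo) (hi := lo) (r := lo) hn (Or.inl rfl)
      (fun hE => absurd (i1 lo hE le_rfl) (not_le.2 hE.2.2))
      (fun hL => absurd (i2 lo hL le_rfl) (not_le.2 hL.2.2))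
    refine Or.inr ⟨lo, _, c, hc, ?_⟩
    have h1 : (Cs P b lo lo).card ≤ P.card := Finset.card_le_card (Finset.filter_subset _ _)
    have h2 : (Bs n adj P lo lo).card ≤ (Us n adj P).card :=
      Finset.card_le_card (Finset.filter_subset _ _)
    rcases hrow with h | h
    · have h3 : (Bs n adj P lo lo).card + 1 ≤ (Us n adj P).card := by
        have h5 := Bs_card (n := n) (adj := adj) (P := P) (lo' := lo + 1) (hi' := lo)
          (Nat.le_add_right lo 1) (le_refl lo) (le_refl lo) (le_refl lo)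
          (Or.inl (Nat.lt_succ_self lo)) h
        exact h5.trans (Finset.card_le_card (Finset.filter_subset _ _))
      have h4 := und_le (n := n) (adj := adj) (h := reg n P b lo lo) (r := lo)
      omega
    · omega
  | succ d ih =>
    intro lo hi h hI
    by_cases hR : (∃ k, Ea adj P a k ∧ lo ≤ k ∧ hi ≤ a k) ∨
        (∃ k, La adj P b k ∧ lo < a k ∧ hi ≤ k)
    · exact ih (lo + 1) hi (by omega) (step_bot hS hF (by omega) hI hR)
    · obtain ⟨hi', rfl⟩ : ∃ hi', hi = hi' + 1 := ⟨lo + d, by omega⟩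
      exact ih lo hi' (by omega) (step_top hS hF (by omega) hI hR)

/-- the scan of a frame -/
theorem scan_of_frame (hS : Strong n adj) (hF : Frame n adj P a b) :
    Scan n adj (P.card + (Us n adj P).card) := by
  classical
  rcases Nat.eq_zero_or_pos n with h0 | hn
  · exact Or.inl h0
  refine run hS hF (n - 1) 0 (n - 1) (by omega) ⟨by omega, by omega, ?_, ?_, _,
    Reach.start _, ?_⟩
  · intro k hk _
    have h1 := hF.blt k hk.1
    have h2 := hF.ab k hk.1
    omega
  · intro k _ _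
    exact Nat.zero_le _
  · have h1 : newc n (emp n) (reg n P b 0 (n - 1)) ≤ (Cs P b 0 (n - 1)).card := by
      unfold newc
      refine Finset.card_le_card fun x hx => ?_
      rw [Finset.mem_filter, Finset.mem_range] at hx
      rcases mem_reg hx.1 hx.2.1 with h | h
      · exact W_Cs_lo hF h
      · exact W_Cs_hi hF h
    omega

end

end Pool.Agent.K7.H42.SD
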